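import Mathlib

-- part MP_81537f_an.Sep
section

set_option autoImplicit false

open Complex Filter Topology Set

namespace Pool.Agent.MP_81537f_an

/-- The open ray starting at `exp (i θ)` and going to infinity, start included. -/
def ray (θ : ℝ) : Set ℂ := {u | ∃ s : ℝ, 1 ≤ s ∧ u = s * exp (θ * I)}

lemma ray_isPreconnected (θ : ℝ) : IsPreconnected (ray θ) := by
  have : ray θ = (fun s : ℝ => (s : ℂ) * exp (θ * I)) '' Ici 1 := by
    ext u
    simp only [ray, mem_ofPred_eq, mem_image, mem_Ici]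
    constructor
    · rintro ⟨s, hs, rfl⟩; exact ⟨s, hs, rfl⟩
    · rintro ⟨s, hs, rfl⟩; exact ⟨s, hs, rfl⟩
  rw [this]
  exact isPreconnected_Ici.image _ (by fun_prop)

lemma start_mem_ray (θ : ℝ) : exp (θ * I) ∈ ray θ := ⟨1, le_rfl, by simp⟩

lemma sub_exp_mem_slitPlane {a ψ : ℝ} (ha : 0 ≤ a) (h0 : 0 < ψ) (h1 : ψ < 2 * Real.pi) :
    (a : ℂ) - exp (ψ * I) ∈ slitPlane := by
  rw [mem_slitPlane_iff]
  by_cases hs : Real.sin ψ = 0
  · left
    have hψ : ψ = Real.pi := by
      have h2 : Real.sin (ψ - Real.pi) = 0 := by rw [Real.sin_sub_pi, hs, neg_zero]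
      have := (Real.sin_eq_zero_iff_of_lt_of_lt (x := ψ - Real.pi) (by linarith) (by linarith)).1 h2
      linarith
    subst hψ
    simp only [exp_pi_mul_I, sub_neg_eq_add, add_re, ofReal_re, one_re]
    linarith
  · right
    simp only [sub_im, ofReal_im, exp_ofReal_mul_I_im, zero_sub, ne_eq, neg_eq_zero]
    exact hs

lemma tendsto_arg_ray {ψ : ℝ} (h0 : 0 < ψ) (h1 : ψ < 2 * Real.pi) :
    Tendsto (fun s : ℝ => arg (1 - s * exp (ψ * I))) atTop (𝓝 (ψ - Real.pi)) := by
  have hlim : arg ((0 : ℝ) - exp (ψ * I)) = ψ - Real.pi := by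
    have e1 : ((0 : ℝ) : ℂ) - exp (ψ * I) = exp (((ψ - Real.pi : ℝ) : ℂ) * I) := by
      push_cast
      rw [sub_mul, exp_sub, exp_pi_mul_I]
      field_simp
      simp
    rw [e1, exp_mul_I]
    exact arg_cos_add_sin_mul_I ⟨by linarith, by linarith⟩
  have hc : ContinuousAt arg (((0 : ℝ) : ℂ) - exp (ψ * I)) :=
    continuousAt_arg (sub_exp_mem_slitPlane le_rfl h0 h1)
  have ht : Tendsto (fun s : ℝ => ((s⁻¹ : ℝ) : ℂ) - exp (ψ * I)) atTop
      (𝓝 (((0 : ℝ) : ℂ) - exp (ψ * I))) :=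
    ((continuous_ofReal.tendsto 0).comp tendsto_inv_atTop_zero).sub_const _
  have := hc.tendsto.comp ht
  rw [hlim] at this
  refine this.congr' ?_
  filter_upwards [eventually_gt_atTop 0] with s hs
  simp only [Function.comp]
  have e2 : (1 : ℂ) - s * exp (ψ * I) = (s : ℂ) * (((s⁻¹ : ℝ) : ℂ) - exp (ψ * I)) := by
    have : (s : ℂ) ≠ 0 := ofReal_ne_zero.2 hs.ne'
    push_cast
    field_simp
  rw [e2, arg_real_mul _ hs]

lemma one_sub_mem_slitPlane_of_notMem_ray {θ : ℝ} {u : ℂ} (hu : u ∉ ray θ) :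
    1 - u / exp (θ * I) ∈ slitPlane := by
  by_contra h
  rw [mem_slitPlane_iff, not_or, not_lt, not_not] at h
  apply hu
  refine ⟨1 - (1 - u / exp (θ * I)).re, by linarith [h.1], ?_⟩
  have h2 : ((1 - u / exp (θ * I)).re : ℂ) = 1 - u / exp (θ * I) := by
    apply Complex.ext <;> simp [h.2]
  push_cast
  rw [h2]
  have : exp (θ * I) ≠ 0 := exp_ne_zero _
  field_simp
  ring

lemma notMem_ray_of_angle {θ φ : ℝ} (h0 : 0 < φ - θ) (h1 : φ - θ < 2 * Real.pi) {u : ℂ}
    (hu : u ∈ ray φ) : u ∉ ray θ := by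
  rintro ⟨s, hs, h⟩
  obtain ⟨s', hs', rfl⟩ := hu
  have hsl := sub_exp_mem_slitPlane (a := s / s') (by positivity) h0 h1
  have : ((s / s' : ℝ) : ℂ) - exp (((φ - θ : ℝ) : ℂ) * I) = 0 := by
    have h3 : (s' : ℂ) ≠ 0 := ofReal_ne_zero.2 (by linarith)
    have h4 : exp (θ * I) ≠ 0 := exp_ne_zero _
    push_cast
    rw [sub_mul, exp_sub]
    generalize exp (θ * I) = E at *
    generalize exp (φ * I) = E' at *
    field_simp
    linear_combination -h
  rw [this] at hsl
  exact zero_notMem_slitPlane hsl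

lemma exists_log_of_preconnected {D W : Set ℂ} (hD : IsPreconnected D) (hDo : IsOpen D)
    (hDW : Disjoint D W) {z z' : ℂ} (hz : z ∈ D) (hz' : z' ∈ D) :
    ∃ L : ℂ → ℂ, ContinuousOn L W ∧ (∀ u ∈ W, z' - u = exp (L u) * (z - u)) ∧
      Tendsto L (Bornology.cobounded ℂ) (𝓝 0) := by
  let P : ℂ → ℂ → Prop := fun z z' => ∃ L : ℂ → ℂ, ContinuousOn L W ∧
    (∀ u ∈ W, z' - u = exp (L u) * (z - u)) ∧ Tendsto L (Bornology.cobounded ℂ) (𝓝 0)
  refine hD.induction₂ P ?_ ?_ ?_ hz hz'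
  · intro x hx
    obtain ⟨ρ, hρ, hb⟩ := Metric.isOpen_iff.1 hDo x hx
    apply Filter.Eventually.filter_mono nhdsWithin_le_nhds
    filter_upwards [Metric.ball_mem_nhds x hρ] with y hy
    have hxu : ∀ u ∈ W, ρ ≤ ‖x - u‖ := by
      intro u hu
      by_contra hlt
      push Not at hlt
      have : u ∈ Metric.ball x ρ := by
        rw [Metric.mem_ball, dist_comm, dist_eq_norm]; exact hlt
      exact Set.disjoint_left.1 hDW (hb this) hu
    have hyx : ‖y - x‖ < ρ := by rwa [Metric.mem_ball, dist_eq_norm] at hy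
    have hne : ∀ u ∈ W, x - u ≠ 0 := by
      intro u hu h
      have := hxu u hu
      rw [h, norm_zero] at this
      linarith
    have hsl : ∀ u ∈ W, 1 + (y - x) / (x - u) ∈ slitPlane := by
      intro u hu
      apply mem_slitPlane_of_norm_lt_one
      rw [norm_div, div_lt_one (norm_pos_iff.2 (hne u hu))]
      exact hyx.trans_le (hxu u hu)
    refine ⟨fun u => log (1 + (y - x) / (x - u)), ?_, ?_, ?_⟩
    · apply ContinuousOn.clog _ hsl
      exact continuousOn_const.add (continuousOn_const.div (by fun_prop) hne)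
    · intro u hu
      rw [exp_log (slitPlane_ne_zero (hsl u hu))]
      have := hne u hu
      field_simp
      ring
    · have h1 : Tendsto (fun u : ℂ => (x - u)⁻¹) (Bornology.cobounded ℂ) (𝓝 0) :=
        tendsto_inv₀_cobounded.comp (tendsto_const_sub_cobounded x)
      have h2 : Tendsto (fun u : ℂ => 1 + (y - x) / (x - u)) (Bornology.cobounded ℂ) (𝓝 1) := by
        have := (h1.const_mul (y - x)).const_add 1
        simpa [div_eq_mul_inv] using this
      have h3 : ContinuousAt log 1 := continuousAt_clog one_mem_slitPlane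
      have h4 := h3.tendsto.comp h2
      rw [log_one] at h4
      exact h4
  · rintro x y w _ _ _ ⟨L1, c1, e1, t1⟩ ⟨L2, c2, e2, t2⟩
    refine ⟨fun u => L1 u + L2 u, c1.add c2, ?_, by simpa using t1.add t2⟩
    intro u hu
    rw [e2 u hu, e1 u hu, exp_add]
    ring
  · rintro x y _ _ ⟨L1, c1, e1, t1⟩
    refine ⟨fun u => - L1 u, c1.neg, ?_, by simpa using t1.neg⟩
    intro u hu
    rw [e1 u hu, ← mul_assoc, ← exp_add]
    simp

lemma tendsto_ray_cobounded (φ : ℝ) :
    Tendsto (fun s : ℝ => (s : ℂ) * exp (φ * I)) atTop (Bornology.cobounded ℂ) := by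
  rw [← tendsto_norm_atTop_iff_cobounded]
  refine tendsto_id.congr' ?_
  filter_upwards [eventually_ge_atTop 0] with s hs
  simp [abs_of_nonneg hs]

/-- Two disjoint connected sets cannot join alternating rays. -/
theorem sep {D U : Set ℂ} (hD : IsPreconnected D) (hDo : IsOpen D) (hU : IsPreconnected U)
    (hDU : Disjoint D U) {θ₁ φ θ₂ φ' : ℝ} (h1 : θ₁ < φ) (h2 : φ < θ₂) (h3 : θ₂ < φ')
    (h4 : φ' < θ₁ + 2 * Real.pi)
    (hz1 : exp (θ₁ * I) ∈ D) (hz2 : exp (θ₂ * I) ∈ D)
    (hu : exp (φ * I) ∈ U) (hu' : exp (φ' * I) ∈ U)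
    (hr1 : Disjoint (ray θ₁) U) (hr2 : Disjoint (ray θ₂) U)
    (hr : Disjoint D (ray φ)) (hr' : Disjoint D (ray φ')) : False := by
  set W := (ray φ ∪ U) ∪ ray φ' with hW
  have hWc : IsPreconnected W :=
    ((ray_isPreconnected φ).union _ (start_mem_ray φ) hu hU).union _ (Or.inr hu')
      (start_mem_ray φ') (ray_isPreconnected φ')
  have hDW : Disjoint D W := by
    rw [hW, disjoint_union_right, disjoint_union_right]
    exact ⟨⟨hr, hDU⟩, hr'⟩
  obtain ⟨L, hLc, hLe, hLt⟩ := exists_log_of_preconnected hD hDo hDW hz1 hz2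
  have hn1 : ∀ u ∈ W, u ∉ ray θ₁ := by
    rintro u ((hu | hu) | hu)
    · exact notMem_ray_of_angle (by linarith) (by linarith) hu
    · exact fun h => Set.disjoint_left.1 hr1 h hu
    · exact notMem_ray_of_angle (by linarith) (by linarith) hu
  have hn2 : ∀ u ∈ W, u ∉ ray θ₂ := by
    rintro u ((hu | hu) | hu)
    · exact fun h => notMem_ray_of_angle (θ := φ) (φ := θ₂) (by linarith) (by linarith) h hu
    · exact fun h => Set.disjoint_left.1 hr2 h hu
    · exact notMem_ray_of_angle (by linarith) (by linarith) hu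
  set L' : ℂ → ℂ := fun u => log (1 - u / exp (θ₂ * I)) - log (1 - u / exp (θ₁ * I))
    + ((θ₂ - θ₁ : ℝ) : ℂ) * I with hL'
  have hL'c : ContinuousOn L' W := by
    refine ContinuousOn.add (ContinuousOn.sub ?_ ?_) continuousOn_const
    · exact ContinuousOn.clog (by fun_prop)
        (fun u hu => one_sub_mem_slitPlane_of_notMem_ray (hn2 u hu))
    · exact ContinuousOn.clog (by fun_prop)
        (fun u hu => one_sub_mem_slitPlane_of_notMem_ray (hn1 u hu))
  have hexp : ∀ u ∈ W, exp (L u - L' u) = 1 := by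
    intro u hu
    have a1 := slitPlane_ne_zero (one_sub_mem_slitPlane_of_notMem_ray (hn1 u hu))
    have a2 := slitPlane_ne_zero (one_sub_mem_slitPlane_of_notMem_ray (hn2 u hu))
    have e := hLe u hu
    have b1 : exp (θ₁ * I) ≠ 0 := exp_ne_zero _
    have b2 : exp (θ₂ * I) ≠ 0 := exp_ne_zero _
    have c1 : exp (θ₁ * I) - u ≠ 0 := by
      intro h; apply a1; field_simp; linear_combination h
    have c2 : exp (θ₂ * I) - u ≠ 0 := by
      intro h; apply a2; field_simp; linear_combination h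
    rw [exp_sub, hL']
    simp only []
    rw [exp_add, exp_sub, exp_log a1, exp_log a2]
    push_cast
    rw [sub_mul, exp_sub]
    generalize exp (θ₁ * I) = E at *
    generalize exp (θ₂ * I) = E' at *
    field_simp
    linear_combination -e
  set g : ℂ → ℝ := fun u => (L u - L' u).im with hg
  have hgc : ContinuousOn g W := continuous_im.comp_continuousOn (hLc.sub hL'c)
  have hgne : ∀ u ∈ W, g u ≠ -Real.pi := by
    intro u hu h
    have h5 := congrArg re (hexp u hu)
    rw [exp_re] at h5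
    change Real.exp _ * Real.cos (g u) = _ at h5
    rw [h, Real.cos_neg, Real.cos_pi] at h5
    have := Real.exp_pos (L u - L' u).re
    simp only [one_re] at h5
    linarith
  have key : ∀ (ψ ψ₁ ψ₂ : ℝ), 0 < ψ₁ → ψ₁ < 2 * Real.pi → 0 < ψ₂ → ψ₂ < 2 * Real.pi →
      exp (ψ * I) / exp (θ₁ * I) = exp (ψ₁ * I) → exp (ψ * I) / exp (θ₂ * I) = exp (ψ₂ * I) →
      Tendsto (fun s : ℝ => g (s * exp (ψ * I))) atTop (𝓝 (0 - (ψ₂ - ψ₁ + (θ₂ - θ₁)))) := by
    intro ψ ψ₁ ψ₂ a1 a2 a3 a4 e1 e2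
    have t0 : Tendsto (fun s : ℝ => (L (s * exp (ψ * I))).im) atTop (𝓝 0) := by
      exact (continuous_im.tendsto 0).comp (hLt.comp (tendsto_ray_cobounded ψ))
    have t1 := ((tendsto_arg_ray a3 a4).sub (tendsto_arg_ray a1 a2)).add_const (θ₂ - θ₁)
    have := t0.sub t1
    convert this using 2 with s
    · simp only [hg, hL', sub_im, add_im, log_im, mul_div_assoc, e1, e2]
      simp
    · ring
  have k1 := key φ (φ - θ₁) (φ - θ₂ + 2 * Real.pi) (by linarith) (by linarith) (by linarith)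
    (by linarith) (by push_cast; rw [sub_mul, exp_sub])
    (by push_cast; rw [add_mul, sub_mul, exp_add, exp_sub, exp_two_pi_mul_I, mul_one])
  have k2 := key φ' (φ' - θ₁) (φ' - θ₂) (by linarith) (by linarith) (by linarith)
    (by linarith) (by push_cast; rw [sub_mul, exp_sub]) (by push_cast; rw [sub_mul, exp_sub])
  have hpi := Real.pi_pos
  obtain ⟨s, hs1, hs⟩ := ((eventually_ge_atTop 1).and
    (k1.eventually (gt_mem_nhds (show _ < -Real.pi by linarith)))).exists
  obtain ⟨s', hs1', hs'⟩ := ((eventually_ge_atTop 1).and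
    (k2.eventually (lt_mem_nhds (show -Real.pi < _ by linarith)))).exists
  have m1 : (s : ℂ) * exp (φ * I) ∈ W := Or.inl (Or.inl ⟨s, hs1, rfl⟩)
  have m2 : (s' : ℂ) * exp (φ' * I) ∈ W := Or.inr ⟨s', hs1', rfl⟩
  obtain ⟨u, hu, h⟩ := hWc.intermediate_value m1 m2 hgc ⟨hs.le, hs'.le⟩
  exact hgne u hu h

end Pool.Agent.MP_81537f_an

end

-- part MP_81537f_an.RootCount
section

set_option autoImplicit false

open Polynomial Filter Topology Set

namespace Pool.Agent.MP_81537f_an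

lemma exists_tuple_of_card {α : Type*} (s : Multiset α) (D : ℕ) (h : s.card = D) :
    ∃ ρ : Fin D → α, s = Finset.univ.val.map ρ := by
  subst h
  induction s using Quotient.inductionOn with
  | h l =>
    refine ⟨fun i => l.get (Fin.cast (by simp) i), ?_⟩
    change (l : Multiset α) = _
    conv_lhs => rw [← List.ofFn_get l]
    rw [← Fin.univ_val_map]
    rfl

lemma roots_eq_of_eval {P : ℂ[X]} {D : ℕ} {c : ℂ} (hc : c ≠ 0) {ρ : Fin D → ℂ}
    (h : ∀ z, P.eval z = c * ∏ i, (z - ρ i)) : P.roots = Finset.univ.val.map ρ := by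
  have : P = C c * ((Finset.univ.val.map ρ).map (fun a => X - C a)).prod := by
    apply Polynomial.funext
    intro z
    rw [h z, eval_mul, eval_C, eval_multiset_prod]
    simp only [Multiset.map_map, Function.comp, eval_sub, eval_X, eval_C]
    rfl
  rw [this, roots_C_mul _ hc, roots_multiset_prod_X_sub_C]

lemma exists_tuple_eval (P : ℂ[X]) {D : ℕ} (hD : P.natDegree = D) :
    ∃ ρ : Fin D → ℂ, P.roots = Finset.univ.val.map ρ ∧
      ∀ z, P.eval z = P.coeff D * ∏ i, (z - ρ i) := by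
  have hc : P.roots.card = D := by rw [← hD]; exact IsAlgClosed.card_roots_eq_natDegree
  obtain ⟨ρ, hρ⟩ := exists_tuple_of_card _ _ hc
  refine ⟨ρ, hρ, fun z => ?_⟩
  have := C_leadingCoeff_mul_prod_multiset_X_sub_C (p := P) (hc.trans hD.symm)
  conv_lhs => rw [← this]
  rw [eval_mul, eval_C, eval_multiset_prod, hρ, leadingCoeff, hD]
  simp only [Multiset.map_map, Function.comp, eval_sub, eval_X, eval_C]
  rfl

open Classical in
/-- The number of roots in one of two disjoint open sets is constant in a pencil. -/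
theorem root_count (A B : ℂ[X]) (D : ℕ) (w₀ T : ℝ) (hw₀ : 0 ≤ w₀) (hA : A.natDegree ≤ D)
    (hB : B.natDegree ≤ D) (hlc : ∀ w ∈ Icc 0 w₀, A.coeff D - (w : ℂ) * B.coeff D ≠ 0)
    (V₀ V₁ : Set ℂ) (h₀ : IsOpen V₀) (h₁ : IsOpen V₁) (hd : Disjoint V₀ V₁)
    (hroot : ∀ w ∈ Icc 0 w₀, ∀ t, A.eval t - (w : ℂ) * B.eval t = 0 →
      ‖t‖ ≤ T ∧ (t ∈ V₀ ∨ t ∈ V₁)) :
    ((A - C (w₀ : ℂ) * B).roots.filter (· ∈ V₁)).card ≤ (A.roots.filter (· ∈ V₁)).card := by
  set E : ℝ → ℂ[X] := fun w => A - C (w : ℂ) * B with hE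
  have hEc : ∀ w, (E w).coeff D = A.coeff D - (w : ℂ) * B.coeff D := by
    intro w; simp [hE]
  have hEe : ∀ w t, (E w).eval t = A.eval t - (w : ℂ) * B.eval t := by
    intro w t; simp [hE]
  have hEd : ∀ w ∈ Icc 0 w₀, (E w).natDegree = D := by
    intro w hw
    apply natDegree_eq_of_le_of_coeff_ne_zero
    · exact (natDegree_sub_le _ _).trans (max_le hA ((natDegree_C_mul_le _ _).trans hB))
    · rw [hEc]; exact hlc w hw
  set n : ℝ → ℕ := fun w => ((E w).roots.filter (· ∈ V₁)).card with hn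
  set Z : Set (ℝ × (Fin D → ℂ)) := {x | x.1 ∈ Icc 0 w₀ ∧ (∀ i, x.2 i ∈ Metric.closedBall 0 T) ∧
    ∀ z, A.eval z - (x.1 : ℂ) * B.eval z =
      (A.coeff D - (x.1 : ℂ) * B.coeff D) * ∏ i, (z - x.2 i)} with hZ
  have hZc : IsCompact Z := by
    have hK : IsCompact ((Icc 0 w₀) ×ˢ (Set.univ.pi fun _ : Fin D => Metric.closedBall (0 : ℂ) T)) :=
      isCompact_Icc.prod (isCompact_univ_pi fun _ => isCompact_closedBall _ _)
    have : Z = ((Icc 0 w₀) ×ˢ (Set.univ.pi fun _ : Fin D => Metric.closedBall (0 : ℂ) T)) ∩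
        ⋂ z, {x : ℝ × (Fin D → ℂ) | A.eval z - (x.1 : ℂ) * B.eval z =
          (A.coeff D - (x.1 : ℂ) * B.coeff D) * ∏ i, (z - x.2 i)} := by
      ext x
      simp only [hZ, mem_ofPred_eq, mem_inter_iff, mem_prod, Set.mem_pi, mem_univ, true_imp_iff,
        mem_iInter, and_assoc]
    rw [this]
    exact hK.inter_right (isClosed_iInter fun z => isClosed_eq (by fun_prop) (by fun_prop))
  have hZroot : ∀ x ∈ Z, ∀ i, x.2 i ∈ V₀ ∨ x.2 i ∈ V₁ := by
    intro x hx i
    refine (hroot x.1 hx.1 (x.2 i) ?_).2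
    rw [hx.2.2, Finset.prod_eq_zero (Finset.mem_univ i) (sub_self _), mul_zero]
  have hZn : ∀ x ∈ Z, n x.1 = (Finset.univ.filter fun i => x.2 i ∈ V₁).card := by
    intro x hx
    have : (E x.1).roots = Finset.univ.val.map x.2 :=
      roots_eq_of_eval (hlc x.1 hx.1) (fun z => by rw [hEe]; exact hx.2.2 z)
    simp only [hn, this, Multiset.filter_map, Multiset.card_map]
    rfl
  have hsurj : ∀ w ∈ Icc 0 w₀, ∃ ρ, (w, ρ) ∈ Z := by
    intro w hw
    obtain ⟨ρ, hρ, hρe⟩ := exists_tuple_eval (E w) (hEd w hw)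
    refine ⟨ρ, hw, fun i => ?_, fun z => ?_⟩
    · rw [mem_closedBall_zero_iff]
      refine (hroot w hw (ρ i) ?_).1
      rw [← hEe, hρe, Finset.prod_eq_zero (Finset.mem_univ i) (sub_self _), mul_zero]
    · rw [← hEe, hρe, hEc]
  have hclosed : ∀ Q : ℕ → Prop, IsClosed {w | w ∈ Icc 0 w₀ ∧ Q (n w)} := by
    intro Q
    have : {w | w ∈ Icc 0 w₀ ∧ Q (n w)} = Prod.fst '' ⋃ S ∈ {S : Finset (Fin D) | Q S.card},
        (Z ∩ ⋂ i, {x | (i ∈ S → x.2 i ∉ V₀) ∧ (i ∉ S → x.2 i ∉ V₁)}) := by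
      ext w
      simp only [mem_ofPred_eq, mem_image, mem_iUnion, mem_inter_iff, mem_iInter]
      constructor
      · rintro ⟨hw, hQ⟩
        obtain ⟨ρ, hρ⟩ := hsurj w hw
        refine ⟨(w, ρ), ⟨Finset.univ.filter fun i => ρ i ∈ V₁, ?_, hρ, fun i => ?_⟩, rfl⟩
        · rw [← hZn _ hρ]; exact hQ
        · simp only [Finset.mem_filter, Finset.mem_univ, true_and, imp_self, and_true]
          exact fun h1 h0 => Set.disjoint_left.1 hd h0 h1
      · rintro ⟨x, ⟨S, hS, hx, hi⟩, rfl⟩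
        refine ⟨hx.1, ?_⟩
        rw [hZn x hx]
        have : (Finset.univ.filter fun i => x.2 i ∈ V₁) = S := by
          ext i
          simp only [Finset.mem_filter, Finset.mem_univ, true_and]
          constructor
          · intro h; by_contra h'; exact (hi i).2 h' h
          · intro h; exact (hZroot x hx i).resolve_left ((hi i).1 h)
        rw [this]; exact hS
    rw [this]
    refine (IsCompact.image ?_ continuous_fst).isClosed
    refine (Set.toFinite _).isCompact_biUnion fun S _ => hZc.inter_right ?_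
    refine isClosed_iInter fun i => ?_
    have c : Continuous fun x : ℝ × (Fin D → ℂ) => x.2 i := by fun_prop
    by_cases hi : i ∈ S
    · simp only [hi, true_imp_iff, not_true_eq_false, false_imp_iff, and_true]
      exact (h₀.preimage c).isClosed_compl
    · simp only [hi, false_imp_iff, not_false_eq_true, true_imp_iff, true_and]
      exact (h₁.preimage c).isClosed_compl
  have h00 : E 0 = A := by simp [hE]
  change n w₀ ≤ _
  rw [← h00]
  change n w₀ ≤ n 0
  by_contra hlt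
  push Not at hlt
  have := isPreconnected_closed_iff.1 (isPreconnected_Icc (a := (0 : ℝ)) (b := w₀)) _ _
    (hclosed fun k => k ≤ n 0) (hclosed fun k => n 0 < k)
    (fun w hw => by
      rcases le_or_gt (n w) (n 0) with h | h
      · exact Or.inl ⟨hw, h⟩
      · exact Or.inr ⟨hw, h⟩)
    ⟨0, ⟨le_rfl, hw₀⟩, ⟨le_rfl, hw₀⟩, le_rfl⟩ ⟨w₀, ⟨hw₀, le_rfl⟩, ⟨hw₀, le_rfl⟩, hlt⟩
  obtain ⟨w, -, h1, h2⟩ := this
  exact absurd h1.2 (not_le.2 h2.2)

end Pool.Agent.MP_81537f_an

end

-- part MP_81537f_an.Core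
section

set_option autoImplicit false

open Complex Polynomial Filter Topology Set ComplexConjugate

namespace Pool.Agent.MP_81537f_an

lemma exists_kappa (m : ℕ) (hm : 1 ≤ m) : ∃ κ μ : ℝ, 0 < κ ∧ κ ≤ 1 / 2 ∧ 0 < μ ∧
    (∀ v : ℂ, ‖v - 1‖ ≤ κ → ‖1 - (v⁻¹) ^ m‖ ≤ 1 / 4) ∧
    (∀ v : ℂ, ‖v - 1‖ = κ → μ ≤ ‖1 - (v⁻¹) ^ m‖) ∧
    (∀ v : ℂ, v ^ m = 1 → ‖v - 1‖ ≤ 2 * κ → v = 1) := by
  have hc : ContinuousAt (fun v : ℂ => 1 - (v⁻¹) ^ m) 1 :=
    continuousAt_const.sub ((continuousAt_inv₀ one_ne_zero).pow m)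
  have e1 : ∀ᶠ v in 𝓝 (1 : ℂ), ‖1 - (v⁻¹) ^ m‖ ≤ 1 / 4 := by
    have := hc.norm.tendsto
    simp only [inv_one, one_pow, sub_self, norm_zero] at this
    exact this.eventually (ge_mem_nhds (by norm_num))
  have e2 : ∀ᶠ v in 𝓝 (1 : ℂ), v ^ m = 1 → v = 1 := by
    have hf : ({v : ℂ | v ^ m = 1} \ {1}).Finite := by
      refine Set.Finite.subset (Polynomial.nthRoots m (1 : ℂ)).finite_toSet ?_
      intro v hv
      simpa [Polynomial.mem_nthRoots (by omega : 0 < m)] using hv.1
    filter_upwards [hf.isClosed.isOpen_compl.mem_nhds (show (1 : ℂ) ∈ _ by simp)] with v hv h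
    by_contra h'
    exact hv ⟨h, h'⟩
  obtain ⟨δ, hδ, hb⟩ := Metric.eventually_nhds_iff.1 (e1.and e2)
  set κ := min (δ / 4) (1 / 2) with hκ
  have hκ0 : 0 < κ := lt_min (by linarith) (by norm_num)
  have hκ1 : κ ≤ δ / 4 := min_le_left _ _
  have hκ2 : κ ≤ 1 / 2 := min_le_right _ _
  have h3 : ∀ v : ℂ, v ^ m = 1 → ‖v - 1‖ ≤ 2 * κ → v = 1 := fun v h1 h2 =>
    (hb (by rw [dist_eq_norm]; linarith)).2 h1
  have hne : ∀ v ∈ Metric.sphere (1 : ℂ) κ, v ≠ 0 := by
    rintro v hv rfl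
    simp only [Metric.mem_sphere, dist_zero_left, norm_one] at hv
    linarith
  obtain ⟨μ, hμ, hμ'⟩ := (isCompact_sphere (1 : ℂ) κ).exists_forall_le'
    (f := fun v : ℂ => ‖1 - (v⁻¹) ^ m‖) (a := 0)
    (ContinuousOn.norm (continuousOn_const.sub ((continuousOn_id.inv₀ hne).pow m))) (by
      intro v hv
      rw [norm_pos_iff]
      intro h
      have hv' : ‖v - 1‖ = κ := by rwa [Metric.mem_sphere, dist_eq_norm] at hv
      have : v ^ m = 1 := by
        rw [inv_pow, sub_eq_zero, eq_comm, inv_eq_one] at h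
        exact h
      have := h3 v this (by linarith)
      rw [this, sub_self, norm_zero] at hv'
      linarith)
  refine ⟨κ, μ, hκ0, hκ2, hμ, fun v hv => (hb (by rw [dist_eq_norm]; linarith)).1,
    fun v hv => hμ' v (by rwa [Metric.mem_sphere, dist_eq_norm]), h3⟩

/-- Standing assumptions of the level set argument. -/
structure Setup (A B : ℂ[X]) (m b : ℕ) (η ε : ℝ) : Prop where
  hm : 1 ≤ m
  hη : 0 < η
  hη1 : η ≤ 1
  hε : ε ≤ 1 / 8
  cop : ∀ t, A.eval t = 0 → B.eval t ≠ 0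
  symA : ∀ t, ‖A.eval (conj t)‖ = ‖A.eval t‖
  symB : ∀ t, ‖B.eval (conj t)‖ = ‖B.eval t‖
  ne : ∀ t : ℂ, 1 / 2 ≤ ‖t‖ → B.eval t ≠ 0
  model : ∀ t : ℂ, 1 / 2 ≤ ‖t‖ →
    ‖A.eval t / B.eval t - (1 - (-1) ^ b * η * (t⁻¹) ^ m)‖ ≤ ε * η

/-- The set where the quotient is small. -/
def low (A B : ℂ[X]) (η : ℝ) : Set ℂ := {t | ‖A.eval t‖ < (1 - η / 2) * ‖B.eval t‖}

/-- The set where the quotient is large. -/
def high (A B : ℂ[X]) (η : ℝ) : Set ℂ := {t | (1 + η / 2) * ‖B.eval t‖ < ‖A.eval t‖}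

/-- The angles. -/
noncomputable def ang (m j : ℕ) : ℝ := j * Real.pi / m

lemma isOpen_low (A B : ℂ[X]) (η : ℝ) : IsOpen (low A B η) :=
  isOpen_lt (by fun_prop) (by fun_prop)

lemma isOpen_high (A B : ℂ[X]) (η : ℝ) : IsOpen (high A B η) :=
  isOpen_lt (by fun_prop) (by fun_prop)

lemma mem_low_iff {A B : ℂ[X]} {η : ℝ} {t : ℂ} (h : B.eval t ≠ 0) :
    t ∈ low A B η ↔ ‖A.eval t / B.eval t‖ < 1 - η / 2 := by
  rw [norm_div, div_lt_iff₀ (norm_pos_iff.2 h)]; rfl

lemma mem_high_iff {A B : ℂ[X]} {η : ℝ} {t : ℂ} (h : B.eval t ≠ 0) :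
    t ∈ high A B η ↔ 1 + η / 2 < ‖A.eval t / B.eval t‖ := by
  rw [norm_div, lt_div_iff₀ (norm_pos_iff.2 h)]; rfl

lemma exp_ang_pow {m : ℕ} (hm : 1 ≤ m) (j : ℕ) : exp (ang m j * I) ^ m = (-1) ^ j := by
  rw [← exp_nat_mul, ← exp_pi_mul_I, ← exp_nat_mul, ang]
  congr 1
  have : (m : ℂ) ≠ 0 := by exact_mod_cast (by omega : m ≠ 0)
  push_cast
  field_simp

lemma ang_lt {m : ℕ} (hm : 1 ≤ m) {i j : ℕ} (h : i < j) : ang m i < ang m j := by
  unfold ang
  have : (0 : ℝ) < m := by exact_mod_cast hm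
  have : (i : ℝ) < j := by exact_mod_cast h
  have := Real.pi_pos
  gcongr

lemma ang_add {m : ℕ} (hm : 1 ≤ m) (i : ℕ) : ang m (i + 2 * m) = ang m i + 2 * Real.pi := by
  unfold ang
  have : (m : ℝ) ≠ 0 := by exact_mod_cast (by omega : m ≠ 0)
  push_cast
  field_simp

lemma conj_exp_ang {m : ℕ} (hm : 1 ≤ m) {i : ℕ} (hi : i ≤ 2 * m) :
    conj (exp (ang m i * I)) = exp (ang m (2 * m - i) * I) := by
  have : ang m (2 * m - i) = -ang m i + 2 * Real.pi := by
    unfold ang
    have : (m : ℝ) ≠ 0 := by exact_mod_cast (by omega : m ≠ 0)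
    push_cast [hi]
    field_simp
    ring
  rw [this, ← exp_conj]
  push_cast
  rw [add_mul, exp_add, exp_two_pi_mul_I, mul_one]
  simp

namespace Setup

variable {A B : ℂ[X]} {m b : ℕ} {η ε : ℝ}

lemma disj (h : Setup A B m b η ε) : Disjoint (low A B η) (high A B η) := by
  rw [Set.disjoint_left]
  intro t h1 h2
  simp only [low, high, mem_ofPred_eq] at h1 h2
  have := h.hη
  nlinarith [norm_nonneg (B.eval t)]

lemma conj_low (h : Setup A B m b η ε) {t : ℂ} (ht : t ∈ low A B η) : conj t ∈ low A B η := by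
  simp only [low, mem_ofPred_eq, h.symA, h.symB] at ht ⊢
  exact ht

lemma conj_high (h : Setup A B m b η ε) {t : ℂ} (ht : t ∈ high A B η) : conj t ∈ high A B η := by
  simp only [high, mem_ofPred_eq, h.symA, h.symB] at ht ⊢
  exact ht

lemma on_ray (h : Setup A B m b η ε) (j : ℕ) {s : ℝ} (hs : 1 ≤ s) :
    B.eval (s * exp (ang m j * I)) ≠ 0 ∧
    ‖A.eval (s * exp (ang m j * I)) / B.eval (s * exp (ang m j * I)) -
      ((1 - (-1) ^ (b + j) * η * (s⁻¹) ^ m : ℝ) : ℂ)‖ ≤ η / 8 := by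
  have hn : 1 / 2 ≤ ‖(s : ℂ) * exp (ang m j * I)‖ := by
    rw [norm_mul, norm_exp_ofReal_mul_I, Complex.norm_real, Real.norm_eq_abs,
      abs_of_nonneg (by linarith)]
    linarith
  refine ⟨h.ne _ hn, ?_⟩
  have := h.model _ hn
  have e : (1 - (-1) ^ b * η * (((s : ℂ) * exp (ang m j * I))⁻¹) ^ m : ℂ) =
      ((1 - (-1) ^ (b + j) * η * (s⁻¹) ^ m : ℝ) : ℂ) := by
    rw [mul_inv, mul_pow, inv_pow (exp _), exp_ang_pow h.hm]
    push_cast
    rw [← inv_pow (-1 : ℂ), inv_neg_one, pow_add]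
    ring
  rw [e] at this
  have h1 := h.hε
  have h2 := h.hη
  nlinarith

lemma inv_pow_bounds {s : ℝ} (hs : 1 ≤ s) (m : ℕ) : 0 < (s⁻¹) ^ m ∧ (s⁻¹) ^ m ≤ 1 :=
  ⟨by positivity, pow_le_one₀ (by positivity) (inv_le_one_of_one_le₀ hs)⟩

lemma norm_le_of {x : ℂ} {a d : ℝ} (ha : 0 ≤ a) (h : ‖x - (a : ℂ)‖ ≤ d) : ‖x‖ ≤ a + d := by
  have := norm_add_le (x - a) a
  rw [sub_add_cancel, Complex.norm_real, Real.norm_eq_abs, abs_of_nonneg ha] at this
  linarith

lemma le_norm_of {x : ℂ} {a d : ℝ} (h : ‖x - (a : ℂ)‖ ≤ d) : a - d ≤ ‖x‖ := by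
  have := norm_sub_le x (x - a)
  rw [sub_sub_cancel, Complex.norm_real, Real.norm_eq_abs] at this
  linarith [le_abs_self a]

lemma ray_even (h : Setup A B m b η ε) {j : ℕ} (hj : Even (b + j)) :
    Disjoint (ray (ang m j)) (high A B η) := by
  rw [Set.disjoint_left]
  rintro _ ⟨s, hs, rfl⟩ ht
  obtain ⟨h1, h2⟩ := h.on_ray j hs
  rw [mem_high_iff h1] at ht
  rw [hj.neg_one_pow] at h2
  obtain ⟨b1, b2⟩ := inv_pow_bounds hs m
  have := h.hη
  have := h.hη1
  have := norm_le_of (by nlinarith) h2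
  nlinarith

lemma ray_odd (h : Setup A B m b η ε) {j : ℕ} (hj : Odd (b + j)) :
    Disjoint (low A B η) (ray (ang m j)) := by
  rw [Set.disjoint_right]
  rintro _ ⟨s, hs, rfl⟩ ht
  obtain ⟨h1, h2⟩ := h.on_ray j hs
  rw [mem_low_iff h1] at ht
  rw [hj.neg_one_pow] at h2
  obtain ⟨b1, b2⟩ := inv_pow_bounds hs m
  have := h.hη
  have := le_norm_of h2
  nlinarith

lemma start_odd (h : Setup A B m b η ε) {j : ℕ} (hj : Odd (b + j)) :
    exp (ang m j * I) ∈ high A B η := by
  obtain ⟨h1, h2⟩ := h.on_ray j le_rfl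
  simp only [ofReal_one, one_mul] at h1 h2
  rw [mem_high_iff h1]
  rw [hj.neg_one_pow] at h2
  have := h.hη
  have := le_norm_of h2
  simp only [inv_one, one_pow] at this
  linarith

lemma far (h : Setup A B m b η ε) {t : ℂ} (ht : 8 ≤ ‖t‖) :
    ‖A.eval t / B.eval t - ((1 : ℝ) : ℂ)‖ ≤ η / 4 := by
  have h1 := h.model t (by linarith)
  have h2 : ‖(-1) ^ b * η * (t⁻¹) ^ m‖ ≤ η / 8 := by
    rw [norm_mul, norm_mul, norm_pow, norm_neg, norm_one, one_pow, one_mul, Complex.norm_real,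
      Real.norm_eq_abs, abs_of_pos h.hη, norm_pow, norm_inv]
    have a : ‖t‖⁻¹ ≤ 1 / 8 := by rw [inv_eq_one_div]; gcongr
    have : ‖t‖⁻¹ ^ m ≤ 1 / 8 :=
      (pow_le_of_le_one (by positivity) (by linarith) (by have := h.hm; omega)).trans a
    have := h.hη
    nlinarith
  have h3 := norm_sub_le (A.eval t / B.eval t - (1 - (-1) ^ b * η * (t⁻¹) ^ m))
    ((-1) ^ b * η * (t⁻¹) ^ m)
  have e : A.eval t / B.eval t - (1 - (-1) ^ b * η * (t⁻¹) ^ m) - (-1) ^ b * η * (t⁻¹) ^ m =
    A.eval t / B.eval t - ((1 : ℝ) : ℂ) := by push_cast; ring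
  rw [e] at h3
  have := h.hε
  have := h.hη
  nlinarith

lemma high_bounded (h : Setup A B m b η ε) : Bornology.IsBounded (high A B η) := by
  refine (Metric.isBounded_ball (x := (0 : ℂ)) (r := 8)).subset fun t ht => ?_
  rw [mem_ball_zero_iff]
  by_contra h8
  push Not at h8
  rw [mem_high_iff (h.ne t (by linarith))] at ht
  have := norm_le_of zero_le_one (h.far h8)
  have := h.hη
  linarith

lemma exists_root_high (h : Setup A B m b η ε) {u : ℂ} (hu : u ∈ high A B η) :
    ∃ t ∈ connectedComponentIn (high A B η) u, B.eval t = 0 := by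
  by_contra hno
  push Not at hno
  set U := connectedComponentIn (high A B η) u with hU
  have hUo : IsOpen U := (isOpen_high A B η).connectedComponentIn
  have hfr : ∀ x ∈ frontier U, x ∉ high A B η := by
    intro x hx hxh
    have hxc : x ∈ closure U := frontier_subset_closure hx
    have hpre : IsPreconnected (insert x U) :=
      isPreconnected_connectedComponentIn.subset_closure (subset_insert _ _)
        (insert_subset hxc subset_closure)
    have : insert x U ⊆ U := hpre.subset_connectedComponentIn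
      (mem_insert_of_mem _ (mem_connectedComponentIn hu))
      (insert_subset hxh (connectedComponentIn_subset _ _))
    rw [hUo.frontier_eq] at hx
    exact hx.2 (this (mem_insert _ _))
  have hfB : ∀ x ∈ frontier U, B.eval x ≠ 0 := by
    intro x hx h0
    have := hfr x hx
    simp only [high, mem_ofPred_eq, h0, norm_zero, mul_zero, not_lt, norm_le_zero_iff] at this
    exact h.cop x this h0
  have hcl : ∀ x ∈ closure U, B.eval x ≠ 0 := by
    intro x hx
    rw [closure_eq_self_union_frontier] at hx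
    exact hx.elim (hno x) (hfB x)
  have hd : DiffContOnCl ℂ (fun t => A.eval t / B.eval t) U :=
    DifferentiableOn.diffContOnCl
      (A.differentiable.differentiableOn.div B.differentiable.differentiableOn hcl)
  have := Complex.norm_le_of_forall_mem_frontier_norm_le
    (h.high_bounded.subset (connectedComponentIn_subset _ _)) hd (C := 1 + η / 2)
    (fun x hx => by
      have := hfr x hx
      rwa [mem_high_iff (hfB x hx), not_lt] at this)
    (subset_closure (mem_connectedComponentIn hu))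
  rw [mem_high_iff (hno u (mem_connectedComponentIn hu))] at hu
  linarith

lemma conj_mem_component {S : Set ℂ} (hS : ∀ t ∈ S, conj t ∈ S) {u x t : ℂ}
    (hx : x ∈ connectedComponentIn S u) (hxr : conj x = x) (ht : t ∈ connectedComponentIn S u) :
    conj t ∈ connectedComponentIn S u := by
  have h1 : IsPreconnected (conj '' connectedComponentIn S u) :=
    isPreconnected_connectedComponentIn.image _ continuous_conj.continuousOn
  have h2 := h1.subset_connectedComponentIn (F := S) (x := x) ⟨x, hx, hxr⟩ (by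
    rintro _ ⟨y, hy, rfl⟩
    exact hS y (connectedComponentIn_subset _ _ hy))
  rw [connectedComponentIn_eq hx]
  exact h2 ⟨t, ht, rfl⟩

lemma no_cross (h : Setup A B m b η ε) {i j k l : ℕ} (hij : i < j) (hjk : j < k) (hkl : k < l)
    (hl : l < i + 2 * m) (hi : Even (b + i)) (hj : Odd (b + j)) (hk : Even (b + k))
    (hl' : Odd (b + l))
    (h1 : exp (ang m i * I) ∈ connectedComponentIn (low A B η) 0)
    (h2 : exp (ang m k * I) ∈ connectedComponentIn (low A B η) 0)
    (h3 : exp (ang m l * I) ∈ connectedComponentIn (high A B η) (exp (ang m j * I))) : False := by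
  have a := connectedComponentIn_subset (low A B η) 0
  have a' := connectedComponentIn_subset (high A B η) (exp (ang m j * I))
  refine sep isPreconnected_connectedComponentIn (isOpen_low A B η).connectedComponentIn
    isPreconnected_connectedComponentIn (h.disj.mono a a') (ang_lt h.hm hij) (ang_lt h.hm hjk)
    (ang_lt h.hm hkl) ?_ h1 h2 (mem_connectedComponentIn (h.start_odd hj)) h3
    ((h.ray_even hi).mono_right a') ((h.ray_even hk).mono_right a')
    ((h.ray_odd hj).mono_left a) ((h.ray_odd hl').mono_left a)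
  rw [← ang_add h.hm]
  exact ang_lt h.hm hl

open Classical in
lemma card_upper (h : Setup A B m b η ε) {p : ℕ} (S : Finset ℂ) (hS : S.card ≤ p)
    (hSB : ∀ t : ℂ, 0 < t.im → B.eval t = 0 → t ∈ S) :
    ((Finset.range (m + 1)).filter fun j => Even (b + j) ∧
      exp (ang m j * I) ∈ connectedComponentIn (low A B η) 0).card ≤ p + 1 := by
  set J := (Finset.range (m + 1)).filter fun j => Even (b + j) ∧
      exp (ang m j * I) ∈ connectedComponentIn (low A B η) 0 with hJ
  rcases J.eq_empty_or_nonempty with h0 | hne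
  · simp [h0]
  set j₀ := J.min' hne with hj₀
  have hj₀J : j₀ ∈ J := J.min'_mem hne
  have hmem : ∀ j ∈ J, j ≤ m ∧ Even (b + j) ∧
      exp (ang m j * I) ∈ connectedComponentIn (low A B η) 0 := by
    intro j hj
    simp only [hJ, Finset.mem_filter, Finset.mem_range] at hj
    exact ⟨by omega, hj.2⟩
  have hgap : ∀ i ∈ J, ∀ j ∈ J, i < j → i + 2 ≤ j := by
    intro i hi j hj hij
    have a := (hmem i hi).2.1
    have c := (hmem j hj).2.1
    rw [Nat.even_iff] at a c
    omega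
  have hlt : ∀ j ∈ J.erase j₀, j₀ + 2 ≤ j := by
    intro j hj
    rw [Finset.mem_erase] at hj
    exact hgap _ hj₀J _ hj.2 (lt_of_le_of_ne (J.min'_le j hj.2) hj.1.symm)
  have hodd : ∀ j ∈ J.erase j₀, Odd (b + (j - 1)) := by
    intro j hj
    have a := (hmem j (Finset.mem_of_mem_erase hj)).2.1
    have c := hlt j hj
    rw [Nat.even_iff] at a
    rw [Nat.odd_iff]
    omega
  have hroot : ∀ j ∈ J.erase j₀,
      ∃ t ∈ connectedComponentIn (high A B η) (exp (ang m (j - 1) * I)), t ∈ S := by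
    intro j hj
    obtain ⟨t, ht, ht0⟩ := h.exists_root_high (h.start_odd (hodd j hj))
    refine ⟨t, ht, hSB t ?_ ht0⟩
    by_contra hneg
    push Not at hneg
    have c := hlt j hj
    obtain ⟨hjm, hje, hjl⟩ := hmem j (Finset.mem_of_mem_erase hj)
    have hstart := mem_connectedComponentIn (h.start_odd (hodd j hj))
    have hpos : 0 ≤ (exp (ang m (j - 1) * I)).im := by
      rw [exp_ofReal_mul_I_im]
      apply Real.sin_nonneg_of_nonneg_of_le_pi
      · unfold ang; positivity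
      · have : ang m (j - 1) < ang m m := ang_lt h.hm (by omega)
        have e : ang m m = Real.pi := by
          unfold ang
          have : (m : ℝ) ≠ 0 := by exact_mod_cast (by have := h.hm; omega : m ≠ 0)
          field_simp
        linarith
    obtain ⟨x, hx, hx0⟩ := isPreconnected_connectedComponentIn.intermediate_value ht hstart
      continuous_im.continuousOn ⟨hneg, hpos⟩
    have := conj_mem_component (fun t ht => h.conj_high ht) hx (conj_eq_iff_im.2 hx0) hstart
    rw [conj_exp_ang h.hm (by omega)] at this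
    refine h.no_cross (i := j₀) (j := j - 1) (k := j) (l := 2 * m - (j - 1)) (by omega) (by omega)
      (by omega) (by omega) (hmem j₀ hj₀J).2.1 (hodd j hj) hje ?_ (hmem j₀ hj₀J).2.2 hjl this
    have := hodd j hj
    rw [Nat.odd_iff] at this ⊢
    omega
  choose! g hg hgS using hroot
  have hinj : ∀ j ∈ J.erase j₀, ∀ j' ∈ J.erase j₀, j < j' → g j ≠ g j' := by
    intro j hj j' hj' hjj he
    have c := hlt j hj
    have c' := hgap j (Finset.mem_of_mem_erase hj) j' (Finset.mem_of_mem_erase hj') hjj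
    obtain ⟨hjm, hje, hjl⟩ := hmem j (Finset.mem_of_mem_erase hj)
    have hjm' := (hmem j' (Finset.mem_of_mem_erase hj')).1
    have e1 := connectedComponentIn_eq (hg j hj)
    have e2 := connectedComponentIn_eq (hg j' hj')
    refine h.no_cross (i := j₀) (j := j - 1) (k := j) (l := j' - 1) (by omega) (by omega)
      (by omega) (by omega) (hmem j₀ hj₀J).2.1 (hodd j hj) hje (hodd j' hj') (hmem j₀ hj₀J).2.2
      hjl ?_
    rw [e1, he, ← e2]
    exact mem_connectedComponentIn (h.start_odd (hodd j' hj'))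
  have hcard : (J.erase j₀).card ≤ S.card := by
    refine Finset.card_le_card_of_injOn g (fun j hj => hgS j hj) ?_
    intro j hj j' hj' he
    rcases lt_trichotomy j j' with hl | hl | hl
    · exact absurd he (hinj j hj j' hj' hl)
    · exact hl
    · exact absurd he.symm (hinj j' hj' j hj hl)
  rw [Finset.card_erase_of_mem hj₀J] at hcard
  omega

end Setup

end Pool.Agent.MP_81537f_an

end

-- part MP_81537f_an.Core2
section

set_option autoImplicit false

open Complex Polynomial Filter Topology Set ComplexConjugate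

namespace Pool.Agent.MP_81537f_an

namespace Setup

variable {A B : ℂ[X]} {m b : ℕ} {η ε : ℝ}

lemma near (h : Setup A B m b η ε) {j : ℕ} (hj : Even (b + j)) {t : ℂ}
    (ht : ‖t - exp (ang m j * I)‖ ≤ 1 / 2) :
    B.eval t ≠ 0 ∧ ‖t / exp (ang m j * I) - 1‖ = ‖t - exp (ang m j * I)‖ ∧
    ‖A.eval t / B.eval t - ((1 - η : ℝ) : ℂ) - η * (1 - ((t / exp (ang m j * I))⁻¹) ^ m)‖
      ≤ ε * η := by
  have hz : ‖exp (ang m j * I)‖ = 1 := norm_exp_ofReal_mul_I _
  have hz0 : exp (ang m j * I) ≠ 0 := exp_ne_zero _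
  have hn : 1 / 2 ≤ ‖t‖ := by
    have := norm_sub_le t (t - exp (ang m j * I))
    rw [sub_sub_cancel, hz] at this
    linarith
  refine ⟨h.ne t hn, ?_, ?_⟩
  · have : t / exp (ang m j * I) - 1 = (t - exp (ang m j * I)) / exp (ang m j * I) := by
      field_simp
    rw [this, norm_div, hz, div_one]
  · have := h.model t hn
    convert this using 2
    have e : ((-1 : ℂ)) ^ j = (-1) ^ b := by
      have h1 : ((-1 : ℂ)) ^ (b + j) = 1 := hj.neg_one_pow
      have h2 : ((-1 : ℂ)) ^ b * (-1) ^ b = 1 := by rw [← mul_pow]; simp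
      rw [pow_add] at h1
      linear_combination (-1) ^ b * h1 - (-1) ^ j * h2
    rw [inv_div, div_eq_mul_inv (exp _), mul_pow, exp_ang_pow h.hm, e]
    push_cast
    ring

lemma ball_low (h : Setup A B m b η ε) {κ : ℝ} (hκ : κ ≤ 1 / 2)
    (h1 : ∀ v : ℂ, ‖v - 1‖ ≤ κ → ‖1 - (v⁻¹) ^ m‖ ≤ 1 / 4) {j : ℕ} (hj : Even (b + j)) :
    Metric.closedBall (exp (ang m j * I)) κ ⊆ low A B η := by
  intro t ht
  rw [mem_closedBall_iff_norm] at ht
  obtain ⟨a1, a2, a3⟩ := h.near hj (ht.trans hκ)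
  rw [mem_low_iff a1]
  have b1 := h1 _ (a2.le.trans ht)
  have b2 : ‖A.eval t / B.eval t - ((1 - η : ℝ) : ℂ)‖ ≤ ε * η + η * (1 / 4) := by
    have := norm_add_le (A.eval t / B.eval t - ((1 - η : ℝ) : ℂ) -
      η * (1 - ((t / exp (ang m j * I))⁻¹) ^ m)) (η * (1 - ((t / exp (ang m j * I))⁻¹) ^ m))
    rw [sub_add_cancel, norm_mul, Complex.norm_real, Real.norm_eq_abs, abs_of_pos h.hη] at this
    have := h.hη
    nlinarith
  have := norm_le_of (by linarith [h.hη1]) b2
  have := h.hη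
  have := h.hε
  nlinarith

lemma exists_zeta (h : Setup A B m b η ε) {κ μ : ℝ} (hκ0 : 0 < κ) (hκ : κ ≤ 1 / 2) (hμ : 0 < μ)
    (hεμ : ε ≤ μ / 4) (h2 : ∀ v : ℂ, ‖v - 1‖ = κ → μ ≤ ‖1 - (v⁻¹) ^ m‖) {j : ℕ}
    (hj : Even (b + j)) :
    ∃ ζ ∈ Metric.closedBall (exp (ang m j * I)) κ,
      A.eval ζ - ((1 - η : ℝ) : ℂ) * B.eval ζ = 0 := by
  by_contra hno
  push Not at hno
  set z := exp (ang m j * I) with hz
  have hB : ∀ t ∈ Metric.closedBall z κ, B.eval t ≠ 0 := fun t ht =>
    (h.near hj ((mem_closedBall_iff_norm.1 ht).trans hκ)).1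
  have hne : ∀ t ∈ Metric.closedBall z κ, A.eval t / B.eval t - ((1 - η : ℝ) : ℂ) ≠ 0 := by
    intro t ht h0
    apply hno t ht
    have := hB t ht
    field_simp at h0
    linear_combination h0
  have hd : DiffContOnCl ℂ (fun t => (A.eval t / B.eval t - ((1 - η : ℝ) : ℂ))⁻¹)
      (Metric.ball z κ) := by
    apply DifferentiableOn.diffContOnCl
    rw [closure_ball z hκ0.ne']
    exact ((A.differentiable.differentiableOn.div B.differentiable.differentiableOn hB).sub_const
      _).inv hne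
  have hη := h.hη
  have key := Complex.norm_le_of_forall_mem_frontier_norm_le Metric.isBounded_ball hd
    (C := (μ / 2 * η)⁻¹) (z := z) (by
      intro t ht
      rw [frontier_ball z hκ0.ne', mem_sphere_iff_norm] at ht
      obtain ⟨a1, a2, a3⟩ := h.near hj (ht.le.trans hκ)
      have b1 := h2 _ (a2.trans ht)
      rw [norm_inv]
      apply inv_anti₀ (by positivity)
      have := norm_sub_le (A.eval t / B.eval t - ((1 - η : ℝ) : ℂ))
        (A.eval t / B.eval t - ((1 - η : ℝ) : ℂ) - η * (1 - ((t / z)⁻¹) ^ m))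
      rw [sub_sub_cancel, norm_mul, Complex.norm_real, Real.norm_eq_abs, abs_of_pos h.hη] at this
      nlinarith) (subset_closure (Metric.mem_ball_self hκ0))
  obtain ⟨a1, a2, a3⟩ := h.near (t := z) hj (by rw [hz]; simp)
  have hz0 : z ≠ 0 := exp_ne_zero _
  rw [← hz, div_self hz0, inv_one, one_pow, sub_self, mul_zero, sub_zero] at a3
  rw [norm_inv, inv_le_inv₀ (norm_pos_iff.2 (hne z (Metric.mem_closedBall_self hκ0.le)))
    (by positivity)] at key
  nlinarith

end Setup

theorem core (m : ℕ) (hm : 1 ≤ m) : ∃ ε : ℝ, 0 < ε ∧ ε ≤ 1 / 8 ∧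
    ∀ (A B A₀ : ℂ[X]) (e b D p : ℕ) (η : ℝ) (S : Finset ℂ), Setup A B m b η ε → b ≤ 1 →
      A = X ^ e * A₀ → A.natDegree ≤ D → B.natDegree ≤ D →
      (∀ w ∈ Icc 0 (1 - η), A.coeff D - (w : ℂ) * B.coeff D ≠ 0) → S.card ≤ p →
      (∀ t : ℂ, 0 < t.im → B.eval t = 0 → t ∈ S) → m ≤ A₀.natDegree + 2 * p + 2 := by
  classical
  obtain ⟨κ, μ, hκ0, hκ, hμ, h1, h2, h3⟩ := exists_kappa m hm
  refine ⟨min (μ / 4) (1 / 8), lt_min (by linarith) (by norm_num), min_le_right _ _, ?_⟩
  intro A B A₀ e b D p η S h hb hA₀ hA hB hlc hS hSB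
  have hη := h.hη
  set V₀ := connectedComponentIn (low A B η) 0 with hV₀
  set V₁ := low A B η \ V₀ with hV₁
  have o₀ : IsOpen V₀ := (isOpen_low A B η).connectedComponentIn
  have o₁ : IsOpen V₁ := by
    rw [isOpen_iff_forall_mem_open]
    intro x hx
    refine ⟨connectedComponentIn (low A B η) x, fun y hy => ⟨connectedComponentIn_subset _ _ hy,
      fun hy0 => hx.2 ?_⟩, (isOpen_low A B η).connectedComponentIn, mem_connectedComponentIn hx.1⟩
    rw [hV₀, connectedComponentIn_eq hy0, ← connectedComponentIn_eq hy]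
    exact mem_connectedComponentIn hx.1
  have hrc := root_count A B D (1 - η) 8 (by linarith [h.hη1]) hA hB hlc V₀ V₁ o₀ o₁
    disjoint_sdiff_right (by
      intro w hw t ht
      have hBt : B.eval t ≠ 0 := by
        intro h0
        rw [h0, mul_zero, sub_zero] at ht
        exact h.cop t ht h0
      have hq : ‖A.eval t / B.eval t‖ = w := by
        rw [sub_eq_zero.1 ht, mul_div_assoc, div_self hBt, mul_one, Complex.norm_real,
          Real.norm_eq_abs, abs_of_nonneg hw.1]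
      have hl : t ∈ low A B η := by
        rw [mem_low_iff hBt, hq]; linarith [hw.2]
      refine ⟨?_, ?_⟩
      · by_contra h8
        push Not at h8
        have := Setup.le_norm_of (h.far h8.le)
        linarith [hw.2]
      · by_cases h0 : t ∈ V₀
        · exact Or.inl h0
        · exact Or.inr ⟨hl, h0⟩)
  have hA0 : A ≠ 0 := by
    intro h0
    apply hlc 0 ⟨le_rfl, by linarith [h.hη1]⟩
    simp [h0]
  have h0V : (0 : ℂ) ∉ V₁ := fun h0 => h0.2 (mem_connectedComponentIn h0.1)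
  have hc1 : (A.roots.filter (· ∈ V₁)).card ≤ A₀.natDegree := by
    have : A.roots = (X ^ e : ℂ[X]).roots + A₀.roots := by
      rw [hA₀] at hA0 ⊢
      exact roots_mul hA0
    rw [this, Multiset.filter_add, roots_X_pow, Multiset.filter_eq_nil.2 (by
      intro a ha
      rw [Multiset.mem_singleton.1 (Multiset.mem_of_mem_nsmul ha)]
      exact h0V), zero_add]
    exact (Multiset.card_le_card (Multiset.filter_le _ _)).trans (card_roots' _)
  have hev : ∀ k, Even (b + (2 * k + b)) := fun k => ⟨b + k, by ring⟩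
  choose ζ hζ hζ0 using fun k : ℕ => h.exists_zeta hκ0 hκ hμ (min_le_left _ _) h2 (hev k)
  have hE0 : A - C ((1 - η : ℝ) : ℂ) * B ≠ 0 := by
    intro h0
    apply hlc (1 - η) ⟨by linarith [h.hη1], le_rfl⟩
    have := congrArg (fun P => P.coeff D) h0
    simpa only [coeff_sub, coeff_C_mul, coeff_zero] using this
  set K₁ := (Finset.range m).filter fun k => exp (ang m (2 * k + b) * I) ∉ V₀ with hK₁
  set K₀ := (Finset.range m).filter fun k => exp (ang m (2 * k + b) * I) ∈ V₀ with hK₀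
  have hsum : K₀.card + K₁.card = m := by
    rw [hK₀, hK₁, Finset.card_filter_add_card_filter_not, Finset.card_range]
  have hinj : ∀ k < m, ∀ l < m, k < l → ζ k ≠ ζ l := by
    intro k hk l hl hkl he
    have a1 := mem_closedBall_iff_norm.1 (hζ k)
    have a2 := mem_closedBall_iff_norm.1 (hζ l)
    have hz : ‖exp (ang m (2 * k + b) * I)‖ = 1 := norm_exp_ofReal_mul_I _
    have hz0 : exp (ang m (2 * k + b) * I) ≠ 0 := exp_ne_zero _
    have := h3 (exp (ang m (2 * l + b) * I) / exp (ang m (2 * k + b) * I)) (by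
      rw [div_pow, exp_ang_pow hm, exp_ang_pow hm, pow_add, pow_add, pow_mul, pow_mul]
      simp) (by
      rw [div_sub_one hz0, norm_div, hz, div_one]
      have := norm_sub_le (ζ k - exp (ang m (2 * k + b) * I)) (ζ l - exp (ang m (2 * l + b) * I))
      rw [he, sub_sub_sub_cancel_left] at this
      rw [he] at a1
      linarith)
    rw [div_eq_one_iff_eq hz0] at this
    have l1 := ang_lt hm (show 2 * k + b < 2 * l + b by omega)
    have l2 := ang_lt hm (show 2 * l + b < 2 * k + b + 2 * m by omega)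
    rw [ang_add hm] at l2
    refine notMem_ray_of_angle (θ := ang m (2 * k + b)) (φ := ang m (2 * l + b)) (by linarith)
      (by linarith) (start_mem_ray _) ?_
    rw [this]
    exact start_mem_ray _
  have hc2 : K₁.card ≤ ((A - C ((1 - η : ℝ) : ℂ) * B).roots.filter (· ∈ V₁)).card := by
    refine le_trans ?_ (Multiset.toFinset_card_le _)
    refine Finset.card_le_card_of_injOn ζ ?_ ?_
    · intro k hk
      simp only [hK₁, Finset.coe_filter, Finset.mem_range, mem_ofPred_eq] at hk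
      simp only [Finset.mem_coe, Multiset.mem_toFinset, Multiset.mem_filter, mem_roots hE0,
        IsRoot.def, eval_sub, eval_mul, eval_C]
      have hsub := h.ball_low hκ h1 (hev k)
      refine ⟨hζ0 k, hsub (hζ k), fun h0 => hk.2 ?_⟩
      rw [hV₀, connectedComponentIn_eq h0]
      exact (convex_closedBall _ _).isPreconnected.subset_connectedComponentIn (hζ k) hsub
        (Metric.mem_closedBall_self hκ0.le)
    · intro k hk l hl he
      simp only [hK₁, Finset.coe_filter, Finset.mem_range, mem_ofPred_eq] at hk hl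
      rcases lt_trichotomy k l with hkl | hkl | hkl
      · exact absurd he (hinj k hk.1 l hl.1 hkl)
      · exact hkl
      · exact absurd he.symm (hinj l hl.1 k hk.1 hkl)
  have hJ := h.card_upper S hS hSB
  set J := (Finset.range (m + 1)).filter fun j => Even (b + j) ∧
      exp (ang m j * I) ∈ connectedComponentIn (low A B η) 0 with hJdef
  have hc3 : (K₀.filter fun k => 2 * k + b ≤ m).card ≤ J.card := by
    refine Finset.card_le_card_of_injOn (fun k => 2 * k + b) ?_ ?_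
    · intro k hk
      simp only [hK₀, Finset.coe_filter, Finset.mem_filter, Finset.mem_range, mem_ofPred_eq] at hk
      simp only [hJdef, Finset.coe_filter, Finset.mem_range, mem_ofPred_eq]
      exact ⟨by omega, hev k, hk.1.2⟩
    · intro k _ l _ he
      simp only at he
      omega
  have hc4 : (K₀.filter fun k => ¬ 2 * k + b ≤ m).card ≤ J.card := by
    refine Finset.card_le_card_of_injOn (fun k => 2 * m - (2 * k + b)) ?_ ?_
    · intro k hk
      simp only [hK₀, Finset.coe_filter, Finset.mem_filter, Finset.mem_range, mem_ofPred_eq] at hk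
      simp only [hJdef, Finset.coe_filter, Finset.mem_range, mem_ofPred_eq]
      refine ⟨by omega, ?_, ?_⟩
      · rw [Nat.even_iff]; omega
      · rw [← conj_exp_ang hm (by omega)]
        have h0 : (0 : ℂ) ∈ low A B η := connectedComponentIn_nonempty_iff.1 ⟨_, hk.1.2⟩
        exact Setup.conj_mem_component (fun t ht => h.conj_low ht) (mem_connectedComponentIn h0)
          (map_zero _) hk.1.2
    · intro k hk l hl he
      simp only [hK₀, Finset.coe_filter, Finset.mem_filter, Finset.mem_range, mem_ofPred_eq]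
        at hk hl
      simp only at he
      omega
  have hrc' : ((A - C ((1 - η : ℝ) : ℂ) * B).roots.filter (· ∈ V₁)).card ≤
      (A.roots.filter (· ∈ V₁)).card := by convert hrc
  have hsum2 := Finset.card_filter_add_card_filter_not (s := K₀) (fun k => 2 * k + b ≤ m)
  omega

end Pool.Agent.MP_81537f_an

end

-- part MP_81537f_an.CoreZ
section

set_option autoImplicit false

open Complex Polynomial Filter Topology Set ComplexConjugate

namespace Pool.Agent.MP_81537f_an

lemma exists_flip (P : ℂ[X]) (s : ℂ) : ∃ A : ℂ[X], A.natDegree ≤ P.natDegree ∧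
    A.coeff P.natDegree = P.eval 0 ∧ A.eval 0 = P.leadingCoeff * s ^ P.natDegree ∧
    ∀ t : ℂ, t ≠ 0 → A.eval t = t ^ P.natDegree * P.eval (s / t) := by
  refine ⟨∑ k ∈ Finset.range (P.natDegree + 1), monomial (P.natDegree - k) (P.coeff k * s ^ k),
    ?_, ?_, ?_, ?_⟩
  · exact natDegree_sum_le_of_forall_le _ _ fun k _ => (natDegree_monomial_le _).trans (by omega)
  · rw [finsetSum_coeff, Finset.sum_eq_single 0]
    · simp [coeff_zero_eq_eval_zero]
    · intro k hk hk0
      rw [Finset.mem_range] at hk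
      rw [coeff_monomial, if_neg (by omega)]
    · simp
  · rw [eval_finsetSum, Finset.sum_eq_single P.natDegree]
    · simp
    · intro k hk hk0
      rw [Finset.mem_range] at hk
      rw [eval_monomial, zero_pow (by omega), mul_zero]
    · simp
  · intro t ht
    rw [eval_finsetSum, eval_eq_sum_range, Finset.mul_sum]
    refine Finset.sum_congr rfl fun k hk => ?_
    rw [Finset.mem_range] at hk
    rw [eval_monomial, div_pow, pow_sub₀ _ ht (by omega)]
    field_simp

theorem coreZ (m : ℕ) (hm : 1 ≤ m) : ∃ ε : ℝ, 0 < ε ∧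
    ∀ (N F : ℂ[X]) (p b : ℕ) (s η : ℝ) (S : Finset ℂ), 0 < s → 0 < η → η ≤ 1 → b ≤ 1 →
      (∀ z, ‖N.eval (conj z)‖ = ‖N.eval z‖) → (∀ z, ‖F.eval (conj z)‖ = ‖F.eval z‖) →
      (∀ z, N.eval z = 0 → F.eval z ≠ 0) → S.card ≤ p →
      (∀ z : ℂ, 0 < z.im → F.eval z = 0 → z ∈ S) →
      (∀ z : ℂ, ‖z‖ ≤ 2 * s → F.eval z ≠ 0 ∧
        ‖N.eval z / F.eval z - (1 - (-1) ^ b * η * (z / s) ^ m)‖ ≤ ε * η) →
      m ≤ N.natDegree + 2 * p + 2 := by
  classical
  obtain ⟨ε, hε0, hε, hcore⟩ := core m hm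
  refine ⟨ε, hε0, ?_⟩
  intro N F p b s η S hs hη hη1 hb hsN hsF hcop hS hSF hmod
  obtain ⟨A₀, a1, a2, a3, a4⟩ := exists_flip N s
  obtain ⟨B₀, b1, b2, b3, b4⟩ := exists_flip F s
  set D := max N.natDegree F.natDegree with hD
  have hDN : N.natDegree ≤ D := le_max_left _ _
  have hDF : F.natDegree ≤ D := le_max_right _ _
  have hsc : (s : ℂ) ≠ 0 := ofReal_ne_zero.2 hs.ne'
  obtain ⟨hF0, hm0⟩ := hmod 0 (by simp; linarith)
  rw [zero_div, zero_pow (by omega), mul_zero, sub_zero] at hm0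
  have hq : ∀ w ∈ Icc 0 (1 - η), N.eval 0 - (w : ℂ) * F.eval 0 ≠ 0 := by
    intro w hw h0
    rw [sub_eq_zero.1 h0, mul_div_assoc, div_self hF0, mul_one, ← ofReal_one, ← ofReal_sub,
      Complex.norm_real, Real.norm_eq_abs, abs_sub_comm, abs_of_nonneg (by linarith [hw.2])] at hm0
    nlinarith [hw.2]
  have hN : N ≠ 0 := by
    rintro rfl
    apply hq 0 ⟨le_rfl, by linarith⟩
    simp
  have hF : F ≠ 0 := by
    rintro rfl
    simp at hF0
  have eA : ∀ t : ℂ, t ≠ 0 →
      (X ^ (D - N.natDegree) * A₀).eval t = t ^ D * N.eval (s / t) := by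
    intro t ht
    rw [eval_mul, eval_pow, eval_X, a4 t ht, ← mul_assoc, ← pow_add, Nat.sub_add_cancel hDN]
  have eB : ∀ t : ℂ, t ≠ 0 →
      (X ^ (D - F.natDegree) * B₀).eval t = t ^ D * F.eval (s / t) := by
    intro t ht
    rw [eval_mul, eval_pow, eval_X, b4 t ht, ← mul_assoc, ← pow_add, Nat.sub_add_cancel hDF]
  have hconj : ∀ t : ℂ, (s : ℂ) / conj t = conj (s / t) := by intro t; simp
  have hsmall : ∀ t : ℂ, 1 / 2 ≤ ‖t‖ → t ≠ 0 ∧ ‖(s : ℂ) / t‖ ≤ 2 * s := by
    intro t ht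
    have : 0 < ‖t‖ := by linarith
    refine ⟨norm_pos_iff.1 this, ?_⟩
    rw [norm_div, Complex.norm_real, Real.norm_eq_abs, abs_of_pos hs, div_le_iff₀ this]
    nlinarith
  refine hcore (X ^ (D - N.natDegree) * A₀) (X ^ (D - F.natDegree) * B₀) A₀ (D - N.natDegree) b D
    p η (S.image fun z => (s : ℂ) / conj z) ⟨hm, hη, hη1, hε, ?_, ?_, ?_, ?_, ?_⟩ hb rfl ?_ ?_ ?_
    (Finset.card_image_le.trans hS) ?_ |>.trans (by omega)
  · intro t hA hB
    by_cases ht : t = 0
    · subst ht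
      rw [eval_mul, eval_pow, eval_X, a3] at hA
      rw [eval_mul, eval_pow, eval_X, b3] at hB
      have c1 := leadingCoeff_ne_zero.2 hN
      have c2 := leadingCoeff_ne_zero.2 hF
      rcases max_choice N.natDegree F.natDegree with h | h
      · rw [hD, h] at hA
        simp [c1, hsc] at hA
      · rw [hD, h] at hB
        simp [c2, hsc] at hB
    · rw [eA t ht, mul_eq_zero, or_iff_right (pow_ne_zero _ ht)] at hA
      rw [eB t ht, mul_eq_zero, or_iff_right (pow_ne_zero _ ht)] at hB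
      exact hcop _ hA hB
  · intro t
    by_cases ht : t = 0
    · simp [ht]
    · rw [eA t ht, eA _ (by simpa using ht), hconj, norm_mul, norm_mul, hsN]
      simp
  · intro t
    by_cases ht : t = 0
    · simp [ht]
    · rw [eB t ht, eB _ (by simpa using ht), hconj, norm_mul, norm_mul, hsF]
      simp
  · intro t ht
    obtain ⟨h0, h1⟩ := hsmall t ht
    rw [eB t h0]
    exact mul_ne_zero (pow_ne_zero _ h0) (hmod _ h1).1
  · intro t ht
    obtain ⟨h0, h1⟩ := hsmall t ht
    rw [eA t h0, eB t h0, mul_div_mul_left _ _ (pow_ne_zero _ h0)]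
    have := (hmod _ h1).2
    have e : (s : ℂ) / t / s = t⁻¹ := by field_simp
    rwa [e] at this
  · refine natDegree_mul_le.trans ?_
    rw [natDegree_X_pow]
    omega
  · refine natDegree_mul_le.trans ?_
    rw [natDegree_X_pow]
    omega
  · intro w hw
    have c1 : (X ^ (D - N.natDegree) * A₀).coeff D = N.eval 0 := by
      rw [← a2, ← coeff_X_pow_mul A₀ (D - N.natDegree) N.natDegree]
      congr 1
      omega
    have c2 : (X ^ (D - F.natDegree) * B₀).coeff D = F.eval 0 := by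
      rw [← b2, ← coeff_X_pow_mul B₀ (D - F.natDegree) F.natDegree]
      congr 1
      omega
    rw [c1, c2]
    exact hq w hw
  · intro t ht hB
    have h0 : t ≠ 0 := by rintro rfl; simp at ht
    rw [eB t h0, mul_eq_zero, or_iff_right (pow_ne_zero _ h0)] at hB
    rw [Finset.mem_image]
    refine ⟨conj (s / t), hSF _ ?_ ?_, ?_⟩
    · rw [conj_im, div_im]
      have := normSq_pos.2 h0
      simp only [ofReal_im, zero_mul, zero_div, ofReal_re, zero_sub, neg_neg]
      positivity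
    · rw [← norm_eq_zero, hsF, hB, norm_zero]
    · rw [conj_conj]
      field_simp

end Pool.Agent.MP_81537f_an

end

-- part MP_81537f_an.Gap
section

set_option autoImplicit false

open Complex Polynomial Filter Topology Set ComplexConjugate

namespace Pool.Agent.MP_81537f_an

lemma tail_bound {a : ℕ → ℂ} {f : ℂ → ℂ} (h : ∀ z, HasSum (fun k => a k * z ^ k) (f z)) (M : ℕ) :
    ∃ C : ℝ, 0 ≤ C ∧ ∀ z : ℂ, ‖z‖ ≤ 1 →
      ‖f z - ∑ k ∈ Finset.range M, a k * z ^ k‖ ≤ C * ‖z‖ ^ M := by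
  have h1 : Summable fun k => ‖a k‖ := by
    have := (h 1).summable.norm
    simpa using this
  have h2 : Summable fun k => ‖a (k + M)‖ := (summable_nat_add_iff (f := fun k => ‖a k‖) M).2 h1
  refine ⟨∑' k, ‖a (k + M)‖, tsum_nonneg fun _ => norm_nonneg _, fun z hz => ?_⟩
  have h3 := (hasSum_nat_add_iff' M).2 (h z)
  refine h3.norm_le_of_bounded (h2.hasSum.mul_right (‖z‖ ^ M)) fun k => ?_
  rw [norm_mul, norm_pow, pow_add]
  have : ‖z‖ ^ k ≤ 1 := pow_le_one₀ (norm_nonneg _) hz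
  have h4 : ‖z‖ ^ k * ‖z‖ ^ M ≤ ‖z‖ ^ M := mul_le_of_le_one_left (by positivity) this
  gcongr

lemma ev_small (K c : ℝ) (hc : 0 < c) : ∀ᶠ s in 𝓝[>] (0 : ℝ), K * s ≤ c := by
  have : Tendsto (fun s : ℝ => K * s) (𝓝 0) (𝓝 (K * 0)) := tendsto_id.const_mul K
  rw [mul_zero] at this
  exact (this.eventually (ge_mem_nhds hc)).filter_mono nhdsWithin_le_nhds

lemma ev_pos : ∀ᶠ s in 𝓝[>] (0 : ℝ), 0 < s := self_mem_nhdsWithin

theorem gap {a : ℕ → ℂ} {f : ℂ → ℂ} (h : ∀ z, HasSum (fun k => a k * z ^ k) (f z))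
    (ha0 : a 0 = 1) (hreal : ∀ k, conj (a k) = a k) {p : ℕ}
    (happ : ∀ δ : ℝ, 0 < δ → ∃ (F : ℂ[X]) (S : Finset ℂ), S.card ≤ p ∧
      (∀ z, ‖F.eval (conj z)‖ = ‖F.eval z‖) ∧ (∀ z : ℂ, 0 < z.im → F.eval z = 0 → z ∈ S) ∧
      ∀ z : ℂ, ‖z‖ ≤ 1 → ‖F.eval z - f z‖ ≤ δ)
    {n m : ℕ} (hn : 1 ≤ n) (hnm : n ≤ m) (hz : ∀ k, n ≤ k → k < m → a k = 0) (hm : a m ≠ 0) :
    m ≤ n + 2 * p + 1 := by
  classical
  obtain ⟨ε, hε, hcore⟩ := coreZ m (by omega)
  obtain ⟨C₁, hC₁, t1⟩ := tail_bound h 1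
  obtain ⟨C₂, hC₂, t2⟩ := tail_bound h (m + 1)
  set N : ℂ[X] := ∑ k ∈ Finset.range n, monomial k (a k) with hN
  have hNe : ∀ z, N.eval z = ∑ k ∈ Finset.range n, a k * z ^ k := by
    intro z; simp [hN, eval_finsetSum]
  have hNd : N.natDegree ≤ n - 1 := natDegree_sum_le_of_forall_le _ _ fun k hk =>
    (natDegree_monomial_le _).trans (by rw [Finset.mem_range] at hk; omega)
  have hNm : ∀ z, ∑ k ∈ Finset.range (m + 1), a k * z ^ k = N.eval z + a m * z ^ m := by
    intro z
    rw [Finset.sum_range_succ, hNe, ← Finset.sum_range_add_sum_Ico _ hnm,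
      Finset.sum_eq_zero (s := Finset.Ico n m), add_zero]
    intro k hk
    rw [Finset.mem_Ico] at hk
    rw [hz k hk.1 hk.2, zero_mul]
  set c : ℝ := ‖a m‖ with hc
  have hc0 : 0 < c := norm_pos_iff.2 hm
  obtain ⟨b, hb, hbc⟩ : ∃ b : ℕ, b ≤ 1 ∧ a m = (-1) ^ b * c := by
    obtain ⟨r, hr⟩ := conj_eq_iff_real.1 (hreal m)
    rw [hc, hr, Complex.norm_real, Real.norm_eq_abs]
    rcases le_total 0 r with h0 | h0
    · exact ⟨0, by omega, by simp [abs_of_nonneg h0]⟩
    · exact ⟨1, le_rfl, by simp [abs_of_nonpos h0]⟩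
  obtain ⟨s, hs0, s1, s2, s3, s4, s5⟩ := (ev_pos.and ((ev_small 2 1 one_pos).and
    ((ev_small (2 * C₁) (1 / 4) (by norm_num)).and ((ev_small c 1 one_pos).and
    ((ev_small (2 * C₂ * 2 ^ (m + 1)) (ε * c / 4) (by positivity)).and
    (ev_small (2 * 2 ^ m * (2 * C₁)) (ε / 4) (by positivity))))))).exists
  set η : ℝ := c * s ^ m with hη
  have hη0 : 0 < η := by positivity
  have hη1 : η ≤ 1 := by
    have : s ^ m ≤ s := pow_le_of_le_one hs0.le (by linarith) (by omega)
    nlinarith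
  obtain ⟨δ₁, hδ0, d1, d2, d3⟩ := (ev_pos.and ((ev_small 2 (ε * η / 8) (by positivity)).and
    ((ev_small (2 * 2 ^ m) (ε / 4) (by positivity)).and (ev_small 1 (1 / 4) (by norm_num))))).exists
  obtain ⟨F, S, hS, hsF, hSF, hF⟩ := happ δ₁ hδ0
  obtain ⟨δ, hδ, hδT⟩ := (Set.Ioo_infinite hδ0).exists_notMem_finset
    (F.roots.toFinset.image fun ρ => (-N.eval ρ).re)
  have hF12 : ∀ z : ℂ, ‖z‖ ≤ 2 * s → 1 / 2 ≤ ‖F.eval z‖ := by
    intro z hz
    have e1 := t1 z (by linarith)
    have e2 := hF z (by linarith)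
    simp only [Finset.range_one, Finset.sum_singleton, ha0, pow_zero, mul_one, pow_one] at e1
    have e3 : ‖(1 : ℂ)‖ ≤ ‖F.eval z‖ + ‖F.eval z - f z‖ + ‖f z - 1‖ := by
      have : (1 : ℂ) = F.eval z - (F.eval z - f z) - (f z - 1) := by ring
      calc ‖(1 : ℂ)‖ = ‖F.eval z - (F.eval z - f z) - (f z - 1)‖ := by rw [← this]
        _ ≤ _ := (norm_sub_le _ _).trans (by gcongr; exact norm_sub_le _ _)
    rw [norm_one] at e3
    nlinarith
  have hFne : F ≠ 0 := by
    rintro rfl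
    have := hF12 0 (by simp; linarith)
    simp at this
    linarith
  have := hcore (N + C (δ : ℂ)) F p b s η S hs0 hη0 hη1 hb ?_ hsF ?_ hS hSF ?_
  · rw [natDegree_add_C] at this
    omega
  · intro z
    rw [← Complex.norm_conj (eval z _)]
    congr 1
    simp [hNe, hreal]
  · intro z h1 h2
    apply hδT
    rw [Finset.mem_image]
    refine ⟨z, by simp [hFne, h2], ?_⟩
    rw [eval_add, eval_C, add_eq_zero_iff_neg_eq] at h1
    rw [h1, ofReal_re]
  · intro z hz
    have h12 := hF12 z hz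
    have hF0 : F.eval z ≠ 0 := norm_pos_iff.1 (by linarith)
    refine ⟨hF0, ?_⟩
    have e1 := t1 z (by linarith)
    have e2 := hF z (by linarith)
    have e3 := t2 z (by linarith)
    simp only [Finset.range_one, Finset.sum_singleton, ha0, pow_zero, mul_one, pow_one] at e1
    rw [hNm] at e3
    have hsc : (s : ℂ) ≠ 0 := ofReal_ne_zero.2 hs0.ne'
    have id1 : eval z (N + C (δ : ℂ)) / F.eval z - (1 - (-1) ^ b * η * (z / s) ^ m) =
        ((δ : ℂ) - (f z - (N.eval z + a m * z ^ m)) - (F.eval z - f z) +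
          a m * z ^ m * ((f z - 1) + (F.eval z - f z))) / F.eval z := by
      rw [hbc, hη, eval_add, eval_C, div_pow]
      push_cast
      field_simp
      ring
    rw [id1, norm_div, div_le_iff₀ (by linarith)]
    have p1 : ‖z‖ ^ m ≤ 2 ^ m * s ^ m := by rw [← mul_pow]; gcongr
    have p2 : ‖z‖ ^ (m + 1) ≤ 2 ^ (m + 1) * s * s ^ m := by
      rw [mul_assoc, ← pow_succ', ← mul_pow]; gcongr
    have n1 : ‖(δ : ℂ)‖ ≤ ε * η / 16 := by
      rw [Complex.norm_real, Real.norm_eq_abs, abs_of_pos hδ.1]; linarith [hδ.2]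
    have n2 : ‖f z - (N.eval z + a m * z ^ m)‖ ≤ ε * η / 8 := by
      calc _ ≤ C₂ * (2 ^ (m + 1) * s * s ^ m) := e3.trans (by gcongr)
        _ = (2 * C₂ * 2 ^ (m + 1) * s) * s ^ m / 2 := by ring
        _ ≤ (ε * c / 4) * s ^ m / 2 := by gcongr
        _ = ε * η / 8 := by rw [hη]; ring
    have n3 : ‖F.eval z - f z‖ ≤ ε * η / 16 := by linarith
    have n4 : ‖a m * z ^ m * ((f z - 1) + (F.eval z - f z))‖ ≤ ε * η / 4 := by
      rw [norm_mul, norm_mul, norm_pow, ← hc]
      calc _ ≤ c * (2 ^ m * s ^ m) * (C₁ * (2 * s) + δ₁) := by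
            gcongr
            exact (norm_add_le _ _).trans (add_le_add (e1.trans (by gcongr)) e2)
        _ = η * ((2 * 2 ^ m * (2 * C₁) * s) + 2 * 2 ^ m * δ₁) / 2 := by rw [hη]; ring
        _ ≤ η * (ε / 4 + ε / 4) / 2 := by gcongr
        _ = ε * η / 4 := by ring
    calc _ ≤ ‖(δ : ℂ)‖ + ‖f z - (N.eval z + a m * z ^ m)‖ + ‖F.eval z - f z‖ +
          ‖a m * z ^ m * ((f z - 1) + (F.eval z - f z))‖ :=
          (norm_add_le _ _).trans (by
            gcongr
            exact (norm_sub_le _ _).trans (by gcongr; exact norm_sub_le _ _))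
      _ ≤ ε * η * (1 / 2) := by linarith
      _ ≤ _ := by gcongr

end Pool.Agent.MP_81537f_an

end
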