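import Pool.Agent.MP_81537f_an.Mg.Gap
import Pool.Agent.MP_81537f_an.Approx

set_option autoImplicit false

open Complex Polynomial Filter Topology Set ComplexConjugate

namespace Pool.Agent.MP_81537f_an

/-- The polynomial collecting the exponents of the first `k` elementary factors. -/
noncomputable def expo (q k : ℕ) (y : ℕ → ℝ) : ℝ[X] :=
  ∑ n ∈ Finset.range k, ∑ j ∈ Finset.Icc 1 q, C (y n ^ j / j) * X ^ j

lemma expo_natDegree (q k : ℕ) (y : ℕ → ℝ) : (expo q k y).natDegree ≤ q :=
  natDegree_sum_le_of_forall_le _ _ fun _ _ => natDegree_sum_le_of_forall_le _ _ fun _ hj =>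
    (natDegree_C_mul_X_pow_le _ _).trans (Finset.mem_Icc.1 hj).2

lemma expo_eval_zero (q k : ℕ) (y : ℕ → ℝ) : (expo q k y).eval 0 = 0 := by
  rw [expo, eval_finsetSum]
  refine Finset.sum_eq_zero fun n _ => ?_
  rw [eval_finsetSum]
  refine Finset.sum_eq_zero fun j hj => ?_
  have := (Finset.mem_Icc.1 hj).1
  rw [eval_mul, eval_pow, eval_X, zero_pow (by omega), mul_zero]

lemma prod_wf (q k : ℕ) (y : ℕ → ℝ) (z : ℂ) : ∏ n ∈ Finset.range k, wf q (y n * z) =
    (∏ n ∈ Finset.range k, (1 - y n * z)) * exp (aeval z (expo q k y)) := by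
  simp only [wf, Finset.prod_mul_distrib, ← exp_sum, expo, map_sum, map_mul, aeval_C, map_pow,
    aeval_X, coe_algebraMap]
  congr 2
  refine Finset.sum_congr rfl fun n _ => Finset.sum_congr rfl fun j _ => ?_
  push_cast
  ring

lemma wf_zero (q : ℕ) : wf q 0 = 1 := by
  rw [wf, Finset.sum_eq_zero]
  · simp
  · intro j hj
    have := (Finset.mem_Icc.1 hj).1
    rw [zero_pow (by omega), zero_div]

lemma poly_rep (N : ℂ[X]) (h0 : N.eval 0 = 1) (hr : ∀ z, N.eval z = 0 → z.im = 0) :
    ∃ (d : ℕ) (y : ℕ → ℝ), (∀ n, d ≤ n → y n = 0) ∧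
      ∀ z, N.eval z = ∏ n ∈ Finset.range d, (1 - y n * z) := by
  obtain ⟨ρ, -, hρ⟩ := exists_tuple_eval N rfl
  have hroot : ∀ i, N.eval (ρ i) = 0 := fun i => by
    rw [hρ, Finset.prod_eq_zero (Finset.mem_univ i) (sub_self _), mul_zero]
  have hne : ∀ i, ρ i ≠ 0 := fun i h => by
    have := hroot i
    rw [h, h0] at this
    exact one_ne_zero this
  refine ⟨N.natDegree, fun n => if h : n < N.natDegree then ((ρ ⟨n, h⟩).re)⁻¹ else 0,
    fun n hn => dif_neg (by omega), fun z => ?_⟩
  rw [Finset.prod_range]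
  have e : ∀ i : Fin N.natDegree, z - ρ i = (0 - ρ i) * (1 - (((ρ i).re⁻¹ : ℝ) : ℂ) * z) := by
    intro i
    have h1 : ((ρ i).re : ℂ) = ρ i := conj_eq_iff_re.1 (conj_eq_iff_im.2 (hr _ (hroot i)))
    have := hne i
    rw [ofReal_inv, h1]
    field_simp
    ring
  rw [hρ z, Finset.prod_congr rfl fun i _ => e i, Finset.prod_mul_distrib, ← mul_assoc, ← hρ 0, h0,
    one_mul]
  refine Finset.prod_congr rfl fun i _ => ?_
  simp only [Fin.is_lt, dif_pos, Fin.eta]

lemma iteratedDeriv_conj {f : ℂ → ℂ} (hf : ∀ z, f (conj z) = conj (f z)) (k : ℕ) :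
    conj ∘ iteratedDeriv k f ∘ conj = iteratedDeriv k f := by
  induction k with
  | zero => ext z; simp [hf]
  | succ k ih => rw [iteratedDeriv_succ, ← deriv_conj_conj, ih]

theorem main (p : ℕ) (f : ℂ → ℂ) (a : ℝ) (β : ℝ[X]) (y : ℕ → ℝ) (ha : 0 ≤ a)
    (hβ : β.natDegree ≤ 2 * p + 1) (hβ0 : β.eval 0 = 0)
    (hy : Summable fun n => |y n| ^ (2 * p + 1 + 1))
    (hf : ∀ z, f z = exp (-(a : ℂ) * z ^ (2 * p + 2) + aeval z β) *
      ∏' n, wf (2 * p + 1) (y n * z))
    (n : ℕ) (hn : ∀ j, j < 2 * p + 2 → iteratedDeriv (n + j) f 0 = 0) :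
    ∃ (d : ℕ) (y : ℕ → ℝ), (∀ n, d ≤ n → y n = 0) ∧
      ∀ z, f z = ∏ n ∈ Finset.range d, (1 - y n * z) := by
  classical
  have hβc : aeval (0 : ℂ) β = 0 := by
    have := aeval_algebraMap_apply_eq_algebraMap_eval (A := ℂ) (0 : ℝ) β
    rwa [hβ0, map_zero] at this
  have hf0 : f 0 = 1 := by
    rw [hf, hβc]
    simp [wf_zero]
  have hd : Differentiable ℂ f := by
    rw [funext hf]
    have := β.differentiable_aeval (𝕜 := ℂ)
    exact Differentiable.mul (by fun_prop) (wf_differentiable hy)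
  have hsym : ∀ z, f (conj z) = conj (f z) := by
    intro z
    rw [hf, hf, wf_conj hy, map_mul, ← exp_conj, aeval_conj]
    simp
  set t : ℕ → ℂ := fun k => (k.factorial : ℂ)⁻¹ * iteratedDeriv k f 0 with ht
  have hsum : ∀ z, HasSum (fun k => t k * z ^ k) (f z) := by
    intro z
    have e : (fun k => t k * z ^ k) =
        fun k : ℕ => (k.factorial : ℂ)⁻¹ • (z - 0) ^ k • iteratedDeriv k f 0 := by
      funext k
      simp only [ht, sub_zero, smul_eq_mul]
      ring
    rw [e]
    exact hasSum_taylorSeries_of_entire hd 0 z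
  have ht0 : t 0 = 1 := by simp [ht, hf0]
  have hreal : ∀ k, conj (t k) = t k := by
    intro k
    have := congrFun (iteratedDeriv_conj hsym k) 0
    simp only [Function.comp, map_zero] at this
    simp [ht, this]
  have hn1 : 1 ≤ n := by
    by_contra h
    have h0 : n = 0 := by omega
    have := hn 0 (by omega)
    rw [h0, iteratedDeriv_zero, hf0] at this
    exact one_ne_zero this
  by_cases hex : ∃ k, n ≤ k ∧ t k ≠ 0
  · exfalso
    have h1 := Nat.find_spec hex
    have h2 : ∀ k, n ≤ k → k < Nat.find hex → t k = 0 := by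
      intro k hk hk'
      by_contra h
      exact Nat.find_min hex hk' ⟨hk, h⟩
    have h3 : n + 2 * p + 2 ≤ Nat.find hex := by
      by_contra h
      apply h1.2
      have := hn (Nat.find hex - n) (by omega)
      rw [Nat.add_sub_cancel' h1.1] at this
      change _ * iteratedDeriv (Nat.find hex) f 0 = 0
      rw [this, mul_zero]
    have := gap hsum ht0 hreal (p := p) ?_ hn1 h1.1 h2 h1.2
    · omega
    intro δ hδ
    obtain ⟨M, hM⟩ := (isCompact_closedBall (0 : ℂ) 1).exists_bound_of_continuousOn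
      (f := fun z => exp (-(a : ℂ) * z ^ (2 * p + 2) + aeval z β)) (by fun_prop)
    have hM0 : 0 ≤ M := (norm_nonneg _).trans (hM 0 (by simp))
    obtain ⟨k, hk⟩ := (Metric.tendstoUniformlyOn_iff.1 (wf_unif hy 1 one_pos) (δ / 2 / (M + 1))
      (by positivity)).exists
    obtain ⟨F, S, hS, hsF, hSF, hF⟩ := approx_exp ha (β + expo (2 * p + 1) k y)
      (∏ n ∈ Finset.range k, (1 - C (y n) * X))
      ((natDegree_add_le _ _).trans (max_le hβ (expo_natDegree _ _ _)))
      (by rw [eval_add, hβ0, expo_eval_zero, add_zero]) (by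
        intro z hz
        rw [map_prod, Finset.prod_ne_zero_iff]
        intro n _ h
        simp only [map_sub, map_one, map_mul, aeval_C, coe_algebraMap, aeval_X] at h
        have h1 := congrArg im h
        have h2 := congrArg re h
        simp only [sub_im, one_im, mul_im, ofReal_re, ofReal_im, zero_mul, add_zero, zero_sub,
          zero_im, neg_eq_zero, mul_eq_zero, hz.ne', or_false] at h1
        simp [h1] at h2) (δ / 2) (by positivity)
    refine ⟨F, S, hS, hsF, hSF, fun z hz => ?_⟩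
    have e1 := hF z hz
    have e2 := hk z (by simpa using hz)
    have e3 := hM z (by simpa using hz)
    have e4 : aeval z (∏ n ∈ Finset.range k, (1 - C (y n) * X)) *
        exp (-(a : ℂ) * z ^ (2 * p + 2) + aeval z (β + expo (2 * p + 1) k y)) =
        exp (-(a : ℂ) * z ^ (2 * p + 2) + aeval z β) *
          ∏ n ∈ Finset.range k, wf (2 * p + 1) (y n * z) := by
      rw [prod_wf, map_add, ← add_assoc, exp_add, map_prod]
      simp only [map_sub, map_one, map_mul, aeval_C, coe_algebraMap, aeval_X]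
      ring
    rw [e4] at e1
    rw [dist_comm, dist_eq_norm] at e2
    have e5 : ‖exp (-(a : ℂ) * z ^ (2 * p + 2) + aeval z β) *
          ∏ n ∈ Finset.range k, wf (2 * p + 1) (y n * z) - f z‖ ≤ δ / 2 := by
      rw [hf, ← mul_sub, norm_mul]
      calc _ ≤ (M + 1) * (δ / 2 / (M + 1)) := by gcongr; linarith
        _ = δ / 2 := by field_simp
    have := norm_sub_le_norm_sub_add_norm_sub (F.eval z)
      (exp (-(a : ℂ) * z ^ (2 * p + 2) + aeval z β) *
          ∏ n ∈ Finset.range k, wf (2 * p + 1) (y n * z)) (f z)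
    linarith
  · push Not at hex
    set N : ℂ[X] := ∑ k ∈ Finset.range n, monomial k (t k) with hN
    have hNe : ∀ z, N.eval z = f z := by
      intro z
      have : HasSum (fun k => t k * z ^ k) (∑ k ∈ Finset.range n, t k * z ^ k) :=
        hasSum_sum_of_ne_finset_zero fun k hk => by
          rw [Finset.mem_range, not_lt] at hk
          rw [hex k hk, zero_mul]
      rw [← this.unique (hsum z)]
      simp [hN, eval_finsetSum]
    obtain ⟨d, y', h1, h2⟩ := poly_rep N (by rw [hNe, hf0]) (by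
      intro z hz
      by_contra h
      rw [hNe, hf] at hz
      exact mul_ne_zero (exp_ne_zero _) (wf_ne_zero hy h) hz)
    exact ⟨d, y', h1, fun z => by rw [← hNe, h2]⟩

end Pool.Agent.MP_81537f_an
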